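import Pool.Agent.Helper91.GR.Voa
import Pool.Agent.Helper30.RY.Main

/-! CASE A: one coordinate of the direction of the base is rich, or the base has no planks (`HRY`), and the row VOL. -/

set_option autoImplicit false

namespace Pool.Agent.Helper59.CA

open Finset Filter Topology Matrix Pool.Agent.Helper69.RK Pool.Agent.Helper31.EC Pool.Agent.Helper31.EC.Sp
open Pool.Agent.Helper40.EL Pool.Agent.Helper40.NSK Pool.Agent.Helper42.NS Pool.Agent.Helper89.LX
open Pool.Agent.Helper3.SG Pool.Agent.Helper3.PR Pool.Agent.Helper3.LF Pool.Agent.Helper48.NS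
open Pool.Agent.Helper91.GR (SJ RYl RobSl HRY st_vola)
open Pool.Agent.Helper83.NSA (Ex4 ST_VOLA)
open Pool.Agent.Helper46.LI (HfP_iff_or)

noncomputable section

section one
variable {G : ℕ → Gg 3} {Φ : ℕ → Fnl 3} {D : ℕ} {g : ℝ} {S : Sp} {s : Sys S 3}

/-- ORIENTATION OF THE BASE: a rich coordinate `y` of the base, or no planks -/
theorem exists_ry (hD : 1 ≤ D) (hs : Sel4 G Φ D g s) {i : Fin 3} (hS : RobSl s i) (hz : ZDir s D i)
    (hlt : lamI s i (c0 s D) < 1) (hfl : FlatI s D i) :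
    (∃ y, y ≠ i ∧ RYl s y) ∨ ∃ u < c0 s D, ∀ c, u < c → c < c0 s D → 0 ≤ c → lamI s i c ≤ c := by
  obtain ⟨c1, h0, h1, h2⟩ := hfl
  have hF : Fac s (prI s i) := Fac.pr s _ _ _ _
  have hc0 : 0 ≤ c0 s D := Sel4.c0_nonneg hD s
  have hc1 : c0 s D ≤ 1 := Sel4.c0_le_one hD s
  have hc1' : c0 s D < 1 := (lamP_ge_self hF le_rfl hc0 hc1).trans_lt hlt
  have hzf : HfE s D (Pi.single i 1) (c0 s D) 1 := hz.resolve_left hc1'.ne
  obtain ⟨cm, hcm⟩ : ∃ cm, cm = (c1 + c0 s D) / 2 := ⟨_, rfl⟩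
  have m1 : c1 < cm := by rw [hcm]; linarith
  have m2 : cm < c0 s D := by rw [hcm]; linarith
  obtain ⟨σ, hσ⟩ : ∃ σ, σ = lamI s i cm - cm := ⟨_, rfl⟩
  have hfl' : ∀ c, c1 < c → c < c0 s D → lamI s i c = c + σ := by
    intro c a b
    rcases le_total c cm with h | h
    · have := h2 c cm a h m2
      rw [hσ]
      linarith
    · have := h2 cm c m1 h b
      rw [hσ]
      linarith
  rcases le_or_gt σ 0 with hs0 | hs0
  · right
    refine ⟨c1, h1, fun c a b _ => ?_⟩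
    rw [hfl' c a b]
    linarith
  · left
    obtain ⟨c, hc⟩ : ∃ c, c = max cm (c0 s D - σ / 2) := ⟨_, rfl⟩
    have a1 : c1 < c := by rw [hc]; exact m1.trans_le (le_max_left _ _)
    have a2 : c < c0 s D := by rw [hc]; exact max_lt m2 (by linarith)
    have a3 : c0 s D < c + σ := by
      have := le_max_right cm (c0 s D - σ / 2)
      rw [← hc] at this
      linarith
    have a4 : 0 ≤ c := h0.trans a1.le
    have a5 : HfP s (prI s i) 1 c (c + σ) := by
      rw [← hfl' c a1 a2]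
      exact HfP_lamP le_rfl c
    have a6 : c + σ ≤ 1 := by
      rw [← hfl' c a1 a2]
      exact lamP_le_one le_rfl _
    rcases (HfP_iff_or i hS a4 (a2.le.trans hc1)).mp a5 with h | h
    · have h3 := HH.mono s h a2.le le_rfl
      exact ⟨i.succAbove 1, Fin.succAbove_ne i _, Pool.Agent.Helper30.RY.rYl
        (fun hh => absurd (Fin.succAbove_right_injective hh) (by decide)) (Fin.succAbove_ne i _)
        (Fin.succAbove_ne i _) hc0 hc1' a3 a6 hs.g0 hs.rich hzf h3⟩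
    · have h3 := HH.mono s h a2.le le_rfl
      exact ⟨i.succAbove 0, Fin.succAbove_ne i _, Pool.Agent.Helper30.RY.rYl
        (fun hh => absurd (Fin.succAbove_right_injective hh) (by decide)) (Fin.succAbove_ne i _)
        (Fin.succAbove_ne i _) hc0 hc1' a3 a6 hs.g0 hs.rich hzf h3⟩

end one

/-! ### lists -/

/-- the slab gauges of all orientations -/
def Gsl (k : ℕ) : Gg 3 := SJ ((Fin.ofNat 3 (k / 2)).succAbove (Fin.ofNat 2 k))
  {0, ((Fin.ofNat 3 (k / 2)).succAbove (1 - Fin.ofNat 2 k)).succ}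

theorem Gsl_eq (z : Fin 3) (j : Fin 2) : Gsl (2 * z + j) = SJ (z.succAbove j) {0, (z.succAbove (1 - j)).succ} := by
  unfold Gsl
  have e1 : Fin.ofNat 3 ((2 * (z : ℕ) + j) / 2) = z := by
    apply Fin.ext
    show (2 * (z : ℕ) + j) / 2 % 3 = z
    have := z.2
    have := j.2
    omega
  have e2 : Fin.ofNat 2 (2 * (z : ℕ) + j) = j := by
    apply Fin.ext
    show (2 * (z : ℕ) + j) % 2 = j
    have := j.2
    omega
  rw [e1, e2]

/-- the zero list of functionals -/
def F0 (_ : ℕ) : Fnl 3 := Pool.Agent.Helper52.SL.Fz 3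

theorem F0_le (q : ℕ) (S : Sp) (s : Sys S 3) : (F0 q).f S s ≤ 0 := le_rfl

theorem ex4_robSl (D : ℕ) : Ex4 D (fun _ _ s => ∀ i, RobSl s i) := by
  refine ⟨Gsl, F0, 0, F0_le, fun g S s hs i => ?_⟩
  intro j T p E hE c σ
  rw [← Gsl_eq i j]
  exact hs.rob.g _ T p E hE c σ

theorem ex4_robH (D : ℕ) : Ex4 D (fun _ _ s => RobH s) := by
  refine ⟨fun k => GD 3 k, F0, 0, F0_le, fun g S s hs => ?_⟩
  intro D' T p E hE c σ
  exact hs.rob.g D' T p E hE c σ

/-- **ROW HRY** -/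
theorem hry {D : ℕ} (hD : 1 ≤ D) : HRY D := by
  refine ⟨Gsl, F0, 0, F0_le, fun g S s hs i hz hlt hfl => ?_⟩
  refine exists_ry hD hs ?_ hz hlt hfl
  intro j T p E hE c σ
  rw [← Gsl_eq i j]
  exact hs.rob.g _ T p E hE c σ

/-- **ROW VOL of case A** -/
theorem vola {D : ℕ} (hD : 1 ≤ D) : ST_VOLA D := st_vola (hry hD)

end

end Pool.Agent.Helper59.CA
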