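import Pool.Agent.Helper59.CA.Tps
import Pool.Agent.Helper41.DZ.R4
import Pool.Agent.Helper59.CA.Ry

/-! CASE A: the boxes with top polynomials for the selected systems. -/

set_option autoImplicit false

namespace Pool.Agent.Helper59.CA

open Finset Filter Topology Matrix Pool.Agent.Helper69.RK Pool.Agent.Helper31.EC Pool.Agent.Helper31.EC.Sp
open Pool.Agent.Helper40.EL Pool.Agent.Helper40.NSK Pool.Agent.Helper42.NS Pool.Agent.Helper89.LX
open Pool.Agent.Helper3.SG Pool.Agent.Helper3.PR Pool.Agent.Helper3.LF Pool.Agent.Helper48.NS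
open Pool.Agent.Helper91.GR (SJ RYl RobSl)
open Pool.Agent.Helper83.NSA (fac_prI LipAt Ex4)

noncomputable section

variable {G : ℕ → Gg 3} {Φ : ℕ → Fnl 3} {D : ℕ} {g : ℝ} {S : Sp} {s : Sys S 3}

/-- below `c0` the thickness is less than one -/
theorem eta_lt_one (hD : 1 ≤ D) (s : Sys S 3) {c : ℝ} (h0 : 0 ≤ c) (hc : c < c0 s D) : eta s D c < 1 := by
  by_contra h
  push Not at h
  exact Sel4.not_Hf h0 hc (HfP_self.mp ((HfP_lamP (s := s) (s' := s) hD c).mono_s h))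

/-- DZ for the windows with large thickness -/
theorem dzw_of (hs : Sel4 G Φ D g s) (hD : 1 ≤ D) (hst : Pool.Agent.Helper59.EV.ST 1 2) (hz : ZDir s D 2)
    (h1 : c0 s D < 1) {u : ℝ} (hu : 0 ≤ u) (hη : ∀ c, u < c → c < c0 s D → lamI s 2 (c0 s D) < eta s D c) :
    DZw s D u (c0 s D) := by
  intro c a b x hx
  have h2 := hη c a b
  have h4 : c0 s D ≤ lamI s 2 (c0 s D) :=
    lamP_ge_self (fac_prI s 2) le_rfl (Sel4.c0_nonneg hD s) (Sel4.c0_le_one hD s)
  have h3 : c < eta s D c := (b.trans_le h4).trans h2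
  obtain ⟨K, hK, -, hT⟩ := Pool.Agent.Helper41.DZ.dz4_sub hs hD hst hz h1 (hu.trans a.le) b.le (Hf_eta hD c) h3 h2 hx
  exact ⟨K, hK, hT⟩

/-- THE BOXES OF CASE A over all countable families of windows in `(u, c0)` -/
structure BxA (s : Sys S 3) (D : ℕ) (u σ : ℝ) : Prop where
  u0 : 0 ≤ u
  uc : u < c0 s D
  c1 : c0 s D < 1
  σ0 : 0 ≤ σ
  /-- the base is flat -/
  lam : ∀ c, u < c → c < c0 s D → lamI s 2 c = c + σ
  eta1 : ∀ c, u < c → c < c0 s D → eta s D c < 1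
  /-- the sheets are thinner than the planks of the window `c0` -/
  lt : ∀ c, u < c → c < c0 s D → lamI s 2 (c0 s D) < eta s D c
  ry : σ = 0 ∨ RYl s 0
  /-- the planks -/
  hR : ∀ c, u < c → c < c0 s D → HH (SJ 1 {0, 1}) s c (c + σ)
  /-- the base is full -/
  full : ∀ c, u < c → c < c0 s D → ∀ l : Lab S, IsKap s c l →
    (1 - c) + (1 - (c + σ)) ≤ h (up1 l (TR.dg (TR.cor s.P 0) 1 ⊔ TR.dg (TR.cor s.P 1) 1)) (up1 l s.T)
  bt : ∀ q : ℕ → ℝ, (∀ i, u < q i ∧ q i < c0 s D) → Nonempty (BT s D q σ)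

theorem BxA.lt' {u σ : ℝ} (B : BxA s D u σ) {c : ℝ} (h1 : u < c) (h2 : c < c0 s D) : c + σ < eta s D c := by
  have h3 := B.lt c h1 h2
  have h4 : lamI s 2 c ≤ lamI s 2 (c0 s D) := lamP_mono le_rfl h2.le
  rw [B.lam c h1 h2] at h4
  linarith

/-- **(B1)** the boxes exist for the selected systems of case A -/
theorem exists_bxA (hD : 1 ≤ D) (hst : Pool.Agent.Helper59.EV.ST 1 2) (hs : Sel4 G Φ D g s)
    (hH : RobH s) (hS : RobSl s 2) (hz : ZDir s D 2) (hlt : lamI s 2 (c0 s D) < 1) (hfl : FlatI s D 2)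
    (hlip : LipAt s D)
    (hvol : ∃ u, u < c0 s D ∧ ∀ c, u < c → c < c0 s D → 0 ≤ c →
      Pool.Agent.Helper3.SG.lvolP s (prI s 2) 1 c ≤ 2 * (c + lamI s 2 c))
    (hRY : RYl s 0 ∨ ∃ u, u < c0 s D ∧ ∀ c, u < c → c < c0 s D → lamI s 2 c = c) :
    ∃ u σ, BxA s D u σ := by
  obtain ⟨c1, h0, h1, h2⟩ := hfl
  obtain ⟨C, d, hd, hC⟩ := hlip
  obtain ⟨u3, hu3, hV⟩ := hvol
  have hc0 : 0 ≤ c0 s D := Sel4.c0_nonneg hD s
  have hc1 : c0 s D ≤ 1 := Sel4.c0_le_one hD s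
  have hc1' : c0 s D < 1 := (lamP_ge_self (fac_prI s 2) le_rfl hc0 hc1).trans_lt hlt
  obtain ⟨cm, hcm⟩ : ∃ cm, cm = (c1 + c0 s D) / 2 := ⟨_, rfl⟩
  have m1 : c1 < cm := by rw [hcm]; linarith
  have m2 : cm < c0 s D := by rw [hcm]; linarith
  obtain ⟨σ, hσ⟩ : ∃ σ, σ = lamI s 2 cm - cm := ⟨_, rfl⟩
  have hfl' : ∀ c, c1 < c → c < c0 s D → lamI s 2 c = c + σ := by
    intro c a b
    rcases le_total c cm with h | h
    · have := h2 c cm a h m2
      rw [hσ]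
      linarith
    · have := h2 cm c m1 h b
      rw [hσ]
      linarith
  have hσ0 : 0 ≤ σ := by
    have h3 : cm ≤ lamI s 2 cm := lamP_ge_self (fac_prI s 2) le_rfl (by linarith) (by linarith)
    rw [hσ]
    linarith
  obtain ⟨δ, hδ⟩ : ∃ δ, δ = 1 - lamI s 2 (c0 s D) := ⟨_, rfl⟩
  have hδ0 : 0 < δ := by rw [hδ]; linarith
  have hC0 : 0 < |C| + 1 := by positivity
  obtain ⟨u, hu⟩ : ∃ u, u = max (max c1 (c0 s D - d)) (max (c0 s D - δ / (|C| + 1)) u3) := ⟨_, rfl⟩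
  have u1 : c1 ≤ u := by rw [hu]; exact (le_max_left _ _).trans (le_max_left _ _)
  have u2 : c0 s D - d ≤ u := by rw [hu]; exact (le_max_right _ _).trans (le_max_left _ _)
  have u4 : c0 s D - δ / (|C| + 1) ≤ u := by rw [hu]; exact (le_max_left _ _).trans (le_max_right _ _)
  have u5 : u3 ≤ u := by rw [hu]; exact (le_max_right _ _).trans (le_max_right _ _)
  have u0 : 0 ≤ u := h0.trans u1
  have uc : u < c0 s D := by
    rw [hu]
    have := div_pos hδ0 hC0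
    exact max_lt (max_lt h1 (by linarith)) (max_lt (by linarith) hu3)
  have hlam : ∀ c, u < c → c < c0 s D → lamI s 2 c = c + σ := fun c a b => hfl' c (u1.trans_lt a) b
  have heta : ∀ c, u < c → c < c0 s D → eta s D c < 1 := fun c a b => eta_lt_one hD s (u0.trans a.le) b
  have hl : ∀ c, u < c → c < c0 s D → lamI s 2 (c0 s D) < eta s D c := by
    intro c a b
    have h3 := hC c (u2.trans_lt a) b
    have h4 : C * (c0 s D - c) ≤ |C| * (c0 s D - c) := mul_le_mul_of_nonneg_right (le_abs_self C) (by linarith)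
    have h5 : c0 s D - c < δ / (|C| + 1) := by linarith
    have h6 : (|C| + 1) * (c0 s D - c) < δ := by
      rw [lt_div_iff₀ hC0] at h5
      linarith
    have h7 : 0 < c0 s D - c := by linarith
    rw [hδ] at h6
    nlinarith
  have hry : σ = 0 ∨ RYl s 0 := by
    rcases hRY with h | ⟨u', hu', h⟩
    · exact Or.inr h
    · left
      obtain ⟨c, hc⟩ : ∃ c, c = (max c1 u' + c0 s D) / 2 := ⟨_, rfl⟩
      have a1 : max c1 u' < c0 s D := max_lt h1 hu'
      have a2 : c1 < c := by rw [hc]; have := le_max_left c1 u'; linarith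
      have a3 : u' < c := by rw [hc]; have := le_max_right c1 u'; linarith
      have a4 : c < c0 s D := by rw [hc]; linarith
      have a5 := hfl' c a2 a4
      rw [h c a3 a4] at a5
      linarith
  refine ⟨u, σ, u0, uc, hc1', hσ0, hlam, heta, hl, hry,
    fun c a b => plank hS (u0.trans a.le) (b.trans hc1') hry (hlam c a b),
    fun c a b l hl => full_of_vol hst (u0.trans a.le) (b.trans hc1') ?_ hl, fun q hq => ?_⟩
  · rw [← hlam c a b]
    exact hV c (u5.trans_lt a) b (u0.trans a.le)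
  exact exists_bt hst hH hS u0 hc1 hσ0 hry hlam
    (fun c a b => hV c (u5.trans_lt a) b (u0.trans a.le)) heta (dzw_of hs hD hst hz hc1' u0 hl) q hq

/-- **(B1)** in the form of the assembly of case A -/
theorem ex4_bxA {D : ℕ} (hD : 1 ≤ D) (hst : Pool.Agent.Helper59.EV.ST 1 2) : Ex4 D (fun _ _ s => ZDir s D 2 →
    lamI s 2 (c0 s D) < 1 → FlatI s D 2 → LipAt s D →
    (RYl s 0 ∨ ∃ u, u < c0 s D ∧ ∀ c, u < c → c < c0 s D → lamI s 2 c = c) → ∃ u σ, BxA s D u σ) := by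
  have h0 : Ex4 D (fun g _ s => ∃ (G : ℕ → Gg 3) (Φ : ℕ → Fnl 3), Sel4 G Φ D g s) :=
    ⟨fun _ => GD 3 0, F0, 0, F0_le, fun g S s hs => ⟨_, _, hs⟩⟩
  refine (((h0.and (ex4_robH D)).and (ex4_robSl D)).and (vola hD)).mono ?_
  rintro g S s ⟨⟨⟨⟨G, Φ, hs⟩, h1⟩, h2⟩, h3⟩ hz hlt hfl hlip hRY
  obtain ⟨u, hu, hv⟩ := h3 2 hz hlt hfl
  exact exists_bxA hD hst hs h1 (h2 2) hz hlt hfl hlip ⟨u, hu, hv⟩ hRY

end

end Pool.Agent.Helper59.CA
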