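import Pool.Agent.Helper98.FR.Ex
import Pool.Agent.Helper83.NSA.End
import Pool.Agent.Helper91.GR.Vol
import Pool.Agent.Helper91.GR.Ltp

/-! CASE A: the hypotheses of `exists_box` when the base is flat on the left of `c0` (`z = P_2`, `R = P_1`, `y = P_0`). -/

set_option autoImplicit false

namespace Pool.Agent.Helper59.CA

open Finset Filter Topology Pool.Agent.Helper69.RK Pool.Agent.Helper31.EC Pool.Agent.Helper31.EC.Sp
open Pool.Agent.Helper40.EL Pool.Agent.Helper40.NSK Pool.Agent.Helper42.NS Pool.Agent.Helper89.LX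
open Pool.Agent.Helper3.SG Pool.Agent.Helper3.PR Pool.Agent.Helper3.LF
open Pool.Agent.Helper91.GR (SJ RYl RobSl lamI_ry)
open Pool.Agent.Helper19.S12 (la HH_la HH_iff_la la_ge_self la_le_one la_nonneg)
open Pool.Agent.Helper83.NSA (fulf fac_prI prI_P oth)
open Pool.Agent.Helper98.FR (Bx exists_box famPj)

noncomputable section

variable {S : Sp}

theorem oth_dg_two (y : S.VV 3) (r : ℝ) :
    (oth y 2).dg r ≤ TR.dg (TR.cor y 0) r ⊔ TR.dg (TR.cor y 1) r := by
  rw [TR.vv_dg_le_iff]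
  intro j
  fin_cases j
  · exact le_sup_left
  · exact le_sup_right

variable {s : Sys S 3}

/-- FULLNESS of the base over the labels of the window, from the bound of the volume -/
theorem full_of_vol (hst : Pool.Agent.Helper59.EV.ST 1 2) {c lam : ℝ} (h0 : 0 ≤ c) (h1 : c < 1)
    (hvol : Pool.Agent.Helper3.SG.lvolP s (prI s 2) 1 c ≤ 2 * (c + lam)) {l : Lab S} (hl : IsKap s c l) :
    (1 - c) + (1 - lam) ≤ h (up1 l (TR.dg (TR.cor s.P 0) 1 ⊔ TR.dg (TR.cor s.P 1) 1)) (up1 l s.T) := by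
  have h2 := fulf (fac_prI s 2) (D := 1) le_rfl hst (σ := 1) h0 h1 le_rfl hl
  rw [prI_P] at h2
  have h4 := h_mono (B := up1 l s.T) (up1_mono l (oth_dg_two s.P 1))
  push_cast at h2
  linarith

/-- THE PLANK: `R = P_1` over `(t, y = P_0)` -/
theorem plank (hrob : RobSl s 2) {c σ : ℝ} (h0 : 0 ≤ c) (h1 : c < 1) (hRY : σ = 0 ∨ RYl s 0)
    (hlam : lamI s 2 c = c + σ) : HH (SJ 1 {0, 1}) s c (c + σ) := by
  rcases hRY with h2 | h2
  · rw [h2, add_zero]
    exact HH_iff_la.mpr (la_ge_self h0 h1.le)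
  · have h3 := lamI_ry (s := s) (z := 2) (j := 1) hrob h2 h0 h1
    rw [← hlam]
    exact HH_iff_la.mpr h3.le

/-- THE BOX OF CASE A -/
theorem exists_bx (hst : Pool.Agent.Helper59.EV.ST 1 2) (hrob : RobSl s 2) {u v σ : ℝ} (hu : 0 ≤ u) (hv : v ≤ 1)
    (hσ : 0 ≤ σ) (hRY : σ = 0 ∨ RYl s 0) (hfl : ∀ c, u < c → c < v → lamI s 2 c = c + σ)
    (hvol : ∀ c, u < c → c < v → Pool.Agent.Helper3.SG.lvolP s (prI s 2) 1 c ≤ 2 * (c + lamI s 2 c))
    (q : ℕ → ℝ) (hq : ∀ i, u < q i ∧ q i < v) (L : ℕ → Lab S) (hL : ∀ i, DMc s (q i) (L i)) :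
    Nonempty (Bx s q (fun i => q i + σ) q L) := by
  have q0 : ∀ i, 0 ≤ q i := fun i => hu.trans (hq i).1.le
  have q1 : ∀ i, q i < 1 := fun i => (hq i).2.trans_le hv
  refine exists_box s q (fun i => q i + σ) q L q0 (fun i => (q1 i).le) (fun i => ?_) q0 (fun i => (q1 i).le)
    (fun i => by linarith) (fun i j _ => by linarith) (fun i j _ => by linarith) (fun i => ?_) (fun i => ?_) hL
    (fun i l hl => ?_)
  · rw [← hfl (q i) (hq i).1 (hq i).2]
    exact lamP_le_one le_rfl _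
  · exact plank hrob (q0 i) (q1 i) hRY (hfl (q i) (hq i).1 (hq i).2)
  · exact HH_iff_la.mpr (la_ge_self (q0 i) (q1 i).le)
  · refine full_of_vol hst (q0 i) (q1 i) ?_ hl
    rw [← hfl (q i) (hq i).1 (hq i).2]
    exact hvol (q i) (hq i).1 (hq i).2

end

end Pool.Agent.Helper59.CA
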