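import Pool.Agent.Helper59.CA.Fld
import Pool.Agent.Helper60.CA.Dm
import Pool.Agent.Helper11.TZ.T0

/-! CASE A: the box with the top polynomials of all windows. -/

set_option autoImplicit false

namespace Pool.Agent.Helper59.CA

open Finset Filter Topology Matrix Pool.Agent.Helper69.RK Pool.Agent.Helper31.EC Pool.Agent.Helper31.EC.Sp
open Pool.Agent.Helper40.EL Pool.Agent.Helper40.NSK Pool.Agent.Helper42.NS Pool.Agent.Helper89.LX
open Pool.Agent.Helper3.SG Pool.Agent.Helper3.PR Pool.Agent.Helper3.LF Pool.Agent.Helper48.NS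
open Pool.Agent.Helper91.GR (SJ RYl RobSl)
open Pool.Agent.Helper98.FR (Bx famPj)
open Pool.Agent.Helper11.TZ (Top exists_top)
open Pool.Agent.Helper60.CA (top_dom)

noncomputable section

variable {S : Sp} {s : Sys S 3} {D : ℕ}

/-- DZ: the optimal forms of the windows in `(u, v)` have the gradient `2 ^ (η n)` in the direction `P_2` -/
def DZw (s : Sys S 3) (D : ℕ) (u v : ℝ) : Prop := ∀ c : ℝ, u < c → c < v →
  ∀ x : ∀ k, FD (S.F k) (Mon (3 + 1) D), (gau s D).Opt (cA s c) (cB s) x →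
  ∃ K : ℕ → ℝ, S.Sub K ∧ Sp.Typ (S := (lb x).sp) (fun k (ω : (x k).l.T.Ω) =>
    2 ^ (2 * eta s D c * (S.F k).n) ≤ K k * Jf (S.dl 1 k) ((x k).g ω) (ptf s k ((x k).l.p.π ω)) 2 2)

/-- THE BOX WITH THE TOP POLYNOMIALS of all its windows -/
structure BT (s : Sys S 3) (D : ℕ) (q : ℕ → ℝ) (σ : ℝ) where
  x : ∀ (_ : ℕ) k, FD (S.F k) (Mon (3 + 1) D)
  hx : ∀ i, (gau s D).Opt (cA s (q i)) (cB s) (x i)
  b : Bx s q (fun i => q i + σ) q fun i => lb (x i)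
  Q : ∀ i k, (b.M k).T.Ω → Mon (3 + 1) D → ℝ
  top : ∀ i, Top b.sy (fun k => (b.M k).V i) D (q i) (eta s D (q i)) (fun _ => Pi.single 2 1) (Q i)

/-- the top polynomial of one window -/
theorem exists_tp (hs : RobH s) {c : ℝ} (h0 : 0 ≤ c) (h1 : c < 1) (hη : eta s D c < 1)
    {x : ∀ k, FD (S.F k) (Mon (3 + 1) D)} (hx : (gau s D).Opt (cA s c) (cB s) x)
    (hJ : ∃ K : ℕ → ℝ, S.Sub K ∧ Sp.Typ (S := (lb x).sp) (fun k (ω : (x k).l.T.Ω) =>
      2 ^ (2 * eta s D c * (S.F k).n) ≤ K k * Jf (S.dl 1 k) ((x k).g ω) (ptf s k ((x k).l.p.π ω)) 2 2)) :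
    ∃ q, Top (s.pull (lb x).pj) (lb x).V D c (eta s D c) (fun _ => Pi.single 2 1) q := by
  obtain ⟨K, hK, hT⟩ := hJ
  refine exists_top hs h0 h1 hη hx (fun _ => Pi.single 2 1) ⟨fun _ => 1, S.Sub_const zero_le_one,
    Eventually.of_forall fun k i => ?_⟩ ⟨K, hK, ?_⟩
  · show |(Pi.single 2 1 : Fin 3 → ℝ) i| ≤ 1
    by_cases hi : i = 2
    · rw [hi, Pi.single_eq_same, abs_one]
    · rw [Pi.single_eq_of_ne hi, abs_zero]
      exact zero_le_one
  · refine typ_mono hT (Eventually.of_forall fun k ω _ h2 => ?_)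
    rw [Matrix.mulVec_single_one, single_one_dotProduct]
    exact h2

/-- THE BOX WITH TOPS -/
theorem exists_bt (hst : Pool.Agent.Helper59.EV.ST 1 2) (hs : RobH s) (hrob : RobSl s 2) {u v σ : ℝ} (hu : 0 ≤ u)
    (hv : v ≤ 1) (hσ : 0 ≤ σ) (hRY : σ = 0 ∨ RYl s 0) (hfl : ∀ c, u < c → c < v → lamI s 2 c = c + σ)
    (hvol : ∀ c, u < c → c < v → Pool.Agent.Helper3.SG.lvolP s (prI s 2) 1 c ≤ 2 * (c + lamI s 2 c))
    (hη : ∀ c, u < c → c < v → eta s D c < 1) (hDZ : DZw s D u v)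
    (q : ℕ → ℝ) (hq : ∀ i, u < q i ∧ q i < v) : Nonempty (BT s D q σ) := by
  have hc : ∀ i, ∃ x : ∀ k, FD (S.F k) (Mon (3 + 1) D), (gau s D).Opt (cA s (q i)) (cB s) x := fun i => by
    obtain ⟨x, hx, -⟩ := exists_can s D (q i)
    exact ⟨x, hx⟩
  choose x hx using hc
  obtain ⟨b⟩ := exists_bx hst hrob hu hv hσ hRY hfl hvol q hq (fun i => lb (x i))
    (fun i => Gau.Ad.dm (gau s D) (hx i).1)
  have ht : ∀ i, ∃ Q, Top b.sy (fun k => (b.M k).V i) D (q i) (eta s D (q i)) (fun _ => Pi.single 2 1) Q := fun i => by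
    obtain ⟨Q0, h0⟩ := exists_tp hs (hu.trans (hq i).1.le) ((hq i).2.trans_le hv) (hη (q i) (hq i).1 (hq i).2) (hx i)
      (hDZ (q i) (hq i).1 (hq i).2 (x i) (hx i))
    exact top_dom (b.dom i) h0
  choose Q hQ using ht
  exact ⟨⟨x, hx, b, Q, hQ⟩⟩

end

end Pool.Agent.Helper59.CA
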